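import Pool.Agent.H.MP_b01f87_al.J

set_option autoImplicit false

namespace Pool.Agent.Results.MP_7217b8_al.Soluble

universe u v

/-- The group has a total order invariant under left and right multiplication. -/
def Orderable (G : Type u) [Group G] : Prop :=
  ∃ _ : LinearOrder G, ∀ f g h : G, f < g → h * f < h * g ∧ f * h < g * h

/-- Every right order of the group is a Conrad right order. -/
def AllConrad (G : Type u) [Group G] : Prop :=
  ∀ _ : LinearOrder G, (∀ f g h : G, f < g → f * h < g * h) →
    ∀ f g : G, 1 < f → f < g → ∃ m : ℕ, 0 < m ∧ g < f * g ^ m * f⁻¹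

open Pool.Agent.H.MP_b01f87_al

theorem result (G : Type u) [Group G] (ho : Orderable G) (hc : AllConrad G)
    (hs : Group.IsSolvable G ∨ ∀ L : Subgroup G, L.FG → Group.IsSolvable L)
    (K : Type v) [Group K] (Z : Subgroup K) [Z.Normal] (hZ : Z ≤ Subgroup.center K)
    (e : K ⧸ Z ≃* G) : AllConrad K :=
  conrad (tm_ext (fun L b => by
    have : Group.IsSolvable L := hs.elim (fun _ => inferInstance) fun h => h L b
    exact loc_nil (bc_of ho) (nb_of (bc_of ho) hc) b) (e.toMonoidHom.comp (QuotientGroup.mk' Z))
    fun x hx => hZ ((QuotientGroup.eq_one_iff x).1 (by simpa using hx)))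

end Pool.Agent.Results.MP_7217b8_al.Soluble
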